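import Mathlib
import Pool.Agent.Q292.DynLPP.Defs
import Pool.Agent.Q292.DynLPP.Main

/-!
# Gaussian tails for the change of the passage time in dynamical Brownian LPP
-/

namespace Pool.Agent.Results.MP_29ad01_pr.GaussianTail

open MeasureTheory ProbabilityTheory Q292.DynLPP
open scoped NNReal

theorem power_bound (k : ℝ) (hk : 0 < k) :
    ∃ C : ℝ, ∀ α : ℝ, 0 < α → 2 * Real.exp (-(α ^ 2 / 4)) ≤ C * α ^ (-k) := by
  obtain ⟨m, hm⟩ := exists_nat_ge (k / 2)
  refine ⟨2 * (4 ^ m * m.factorial), fun α hα => ?_⟩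
  have h1 : α ^ k * Real.exp (-(α ^ 2 / 4)) ≤ 4 ^ m * m.factorial := by
    have hbase : (1 : ℝ) ≤ 4 ^ m * m.factorial := by
      have e1 : (1 : ℝ) ≤ 4 ^ m := one_le_pow₀ (by norm_num)
      have e2 : (1 : ℝ) ≤ m.factorial := by exact_mod_cast Nat.factorial_pos m
      nlinarith
    rcases le_or_gt α 1 with h | h
    · have e1 : α ^ k ≤ 1 := Real.rpow_le_one hα.le h hk.le
      have e2 : Real.exp (-(α ^ 2 / 4)) ≤ 1 := Real.exp_le_one_iff.2 (by nlinarith [sq_nonneg α])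
      calc α ^ k * Real.exp (-(α ^ 2 / 4)) ≤ 1 * 1 :=
            mul_le_mul e1 e2 (Real.exp_pos _).le zero_le_one
        _ ≤ _ := by rw [one_mul]; exact hbase
    · have e1 : α ^ k ≤ (α ^ 2) ^ m := by
        rw [← pow_mul, ← Real.rpow_natCast]
        refine Real.rpow_le_rpow_of_exponent_le h.le ?_
        push_cast
        linarith
      have e2 : (α ^ 2 / 4) ^ m / m.factorial ≤ Real.exp (α ^ 2 / 4) :=
        Real.pow_div_factorial_le_exp _ (by positivity) m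
      have e3 : (α ^ 2) ^ m ≤ 4 ^ m * m.factorial * Real.exp (α ^ 2 / 4) := by
        rw [div_pow, div_div, div_le_iff₀ (by positivity)] at e2
        linarith
      rw [Real.exp_neg, ← div_eq_mul_inv, div_le_iff₀ (Real.exp_pos _)]
      exact e1.trans e3
  have h2 : 0 < α ^ k := Real.rpow_pos_of_pos hα _
  rw [Real.rpow_neg hα.le, ← div_eq_mul_inv, le_div_iff₀ h2]
  linarith

/-- In dynamical Brownian last passage percolation, the change of the passage time between the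
times `0` and `t` has Gaussian tails on the scale `√(n t)`, uniformly in `n ≥ 1` and `t > 0`; in
particular its tail decays faster than any power of `α`, uniformly in `n` and `t ≤ n^{-1/3}`. -/
theorem result.{u} :
    (∀ (Ω : Type u) [MeasurableSpace Ω] (P : Measure Ω) (B : ℕ → ℝ≥0 → ℝ≥0 → Ω → ℝ),
      IsDynamicalBrownian P B → ∀ n : ℕ, 1 ≤ n → ∀ t : ℝ≥0, 0 < t → ∀ α : ℝ, 0 < α →
        P {ω | α * Real.sqrt (n * t) ≤ |T n (fun i x => B i t x ω) - T n (fun i x => B i 0 x ω)|} ≤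
          ENNReal.ofReal (2 * Real.exp (-(α ^ 2 / 4)))) ∧
    ∀ k : ℝ, 0 < k → ∃ C : ℝ, ∀ (Ω : Type u) [MeasurableSpace Ω] (P : Measure Ω)
      (B : ℕ → ℝ≥0 → ℝ≥0 → Ω → ℝ), IsDynamicalBrownian P B →
      ∀ n : ℕ, 1 ≤ n → ∀ t : ℝ≥0, 0 < t → (t : ℝ) ≤ (n : ℝ) ^ (-(1 / 3) : ℝ) → ∀ α : ℝ, 0 < α →
        P {ω | α * Real.sqrt (n * t) ≤ |T n (fun i x => B i t x ω) - T n (fun i x => B i 0 x ω)|} ≤
          ENNReal.ofReal (C * α ^ (-k)) := by
  refine ⟨fun Ω _ P B hB n hn t ht α hα => tail hB hn ht hα, fun k hk => ?_⟩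
  obtain ⟨C, hC⟩ := power_bound k hk
  exact ⟨C, fun Ω _ P B hB n hn t ht _ α hα =>
    (tail hB hn ht hα).trans (ENNReal.ofReal_le_ofReal (hC α hα))⟩

end Pool.Agent.Results.MP_29ad01_pr.GaussianTail
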